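import Pool.Agent.Y841.UC.Erg
import Pool.Agent.W829.UC.UCA5
import Pool.Agent.W829.UC.UCA5a
import Pool.Agent.W829.UC.UCA5b
import Pool.Agent.W829.UC.UCB2
import Pool.Agent.W829.UC.UCB3
import Pool.Agent.W829.UC.UCC6
import Pool.Agent.W344.UCA1
import Pool.Agent.W344.UCA2
import Pool.Agent.W565.UCA3
import Pool.Agent.W346.UCPL1
import Pool.Agent.W346.UCA4
import Pool.Agent.W565.UCB1
import Pool.Agent.W346.UCPL2
import Pool.Agent.W346.UCB5a
import Pool.Agent.W826.UCB5b
import Pool.Agent.W826.UCC1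
import Pool.Agent.W346.UCC2
import Pool.Agent.W344.UCC3
import Pool.Agent.W344.UCC4
import Pool.Agent.W826.UCC5a
import Pool.Agent.W826.UCC5b
import Pool.Agent.W826.UCC7a
import Pool.Agent.W826.UCC7b
import Pool.Agent.W344.UCC8

/-!
# MP_566bac_pr: harmonic functions on the percolation cluster vanishing on a wedge

Bernoulli bond percolation on the square lattice with parameter `p ∈ (1/2, 1) = (p_c(2), 1)`.
There is a wedge (depending on `p` only) such that almost surely, for every translate of the wedge,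
harmonic functions on the infinite cluster which vanish on the translate can take arbitrary values
on some infinite subset of the cluster.  The part of the cluster in the translate of the wedge has
positive density.
-/

set_option autoImplicit false
set_option linter.all false

open MeasureTheory Set Filter
open Pool.Agent.H978R2

namespace Pool.Agent.Results.MP_566bac_pr.WedgeInterpolation

open Pool.Agent.W829.UC Pool.Agent.Y841.UC

/-- The square lattice: `x` and `y` are joined iff they are at Euclidean distance `1`. -/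
def sqLat : SimpleGraph (ℤ × ℤ) where
  Adj x y := (x.1 - y.1) ^ 2 + (x.2 - y.2) ^ 2 = 1
  symm := ⟨fun x y h => by rw [← h]; ring⟩
  loopless := ⟨fun x h => by simp at h⟩

/-- A percolation configuration: `ω s(x, y) = true` means that the edge `xy` is open. -/
abbrev Config : Type := Sym2 (ℤ × ℤ) → Bool

/-- Bernoulli bond percolation: all edges are open with probability `p`, independently. -/
noncomputable def Perc (p : NNReal) (hp : p ≤ 1) : Measure Config :=
  Measure.infinitePi (fun _ : Sym2 (ℤ × ℤ) => (PMF.bernoulli p hp).toMeasure)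

/-- The graph of the open edges. -/
def openGraph (ω : Config) : SimpleGraph (ℤ × ℤ) where
  Adj x y := sqLat.Adj x y ∧ ω s(x, y) = true
  symm := ⟨fun x y h => ⟨h.1.symm, by rw [Sym2.eq_swap]; exact h.2⟩⟩
  loopless := ⟨fun x h => sqLat.loopless.irrefl x h.1⟩

/-- `C` is an infinite open cluster (connected component of the open graph). -/
def InfiniteCluster (ω : Config) (C : Set (ℤ × ℤ)) : Prop :=
  C.Infinite ∧ ∃ x, C = {y | (openGraph ω).Reachable x y}

/-- `h` is harmonic on `C`: for every `x ∈ C` the value `h x` is the average of `h` over the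
open neighbours of `x`. -/
def Harmonic (ω : Config) (C : Set (ℤ × ℤ)) (h : ℤ × ℤ → ℝ) : Prop :=
  ∀ x ∈ C, h x = (∑ᶠ y ∈ {y | (openGraph ω).Adj x y}, h y) /
    (({y | (openGraph ω).Adj x y}.ncard : ℕ) : ℝ)

/-- The lattice points of the closed Euclidean ball of radius `N` around the origin. -/
def eBall (N : ℕ) : Set (ℤ × ℤ) := {x | x.1 ^ 2 + x.2 ^ 2 ≤ (N : ℤ) ^ 2}

/-- Positive (lower) density. -/
def PositiveDensity (S : Set (ℤ × ℤ)) : Prop :=
  0 < liminf (fun N : ℕ => ((S ∩ eBall N).ncard : ℝ) / ((eBall N).ncard : ℝ)) atTop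

/-- The translate by `t` of the wedge `{x : 0 ≤ x₁, A (|x₂| - 1) < x₁}` (of slope `1 / A`). -/
def Wedge (A : ℤ) (t : ℤ × ℤ) : Set (ℤ × ℤ) :=
  {x | 0 ≤ x.1 - t.1 ∧ A * (|x.2 - t.2| - 1) < x.1 - t.1}

lemma adj_iff (ω : Config) (x y : ℤ × ℤ) : (openGraph ω).Adj x y ↔ (openG lat ω).Adj x y :=
  Iff.rfl

lemma og_eq (ω : Config) : openGraph ω = openG lat ω := by
  ext x y; exact Iff.rfl

lemma infComp_iff (ω : Config) (C : Set (ℤ × ℤ)) :
    InfiniteCluster ω C ↔ InfComp (openG lat ω) C := by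
  constructor
  · rintro ⟨h1, x, rfl⟩
    refine ⟨h1, fun y hy z => ?_⟩
    rw [og_eq] at *
    simp only [Set.mem_setOf_eq] at hy ⊢
    exact ⟨fun h => hy.trans h, fun h => hy.symm.trans h⟩
  · rintro ⟨h1, h2⟩
    obtain ⟨x, hx⟩ := h1.nonempty
    refine ⟨h1, x, ?_⟩
    ext y
    rw [Set.mem_setOf_eq, og_eq]
    exact (h2 x hx y).symm

lemma nbr_set (ω : Config) (x : ℤ × ℤ) :
    {y | (openGraph ω).Adj x y} = (↑(oN ω x) : Set (ℤ × ℤ)) := by
  classical
  ext y
  unfold oN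
  rw [Finset.coe_filter, Set.mem_setOf_eq, Set.mem_setOf_eq, adj_iff]
  refine ⟨fun h => ⟨?_, h⟩, fun h => h.2⟩
  exact Pool.Agent.W829.UC.A5.mem_nb h.1

lemma harmonic_of (ω : Config) (C : Set (ℤ × ℤ)) (h : ℤ × ℤ → ℝ) (hh : HarmonicOn ω C h) :
    Harmonic ω C h := by
  intro x hx
  have h1 := hh x hx
  rw [nbr_set, finsum_mem_coe_finset, Set.ncard_coe_finset]
  exact h1

/-- For bond percolation on the square lattice with parameter `p`, `1/2 < p < 1`: there is `A`,
depending on `p` only, such that almost surely there is exactly one infinite cluster `C`, and for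
every translate `W` of the wedge of slope `1/A` the set `C ∩ W` has positive density, and there are
infinitely many different points `z 0, z 1, …` of `C` such that for all real numbers `a 0, a 1, …`
some harmonic function on `C` vanishes on `C ∩ W` and has the value `a n` at `z n` for all `n`. -/
theorem result (p : NNReal) (hp : (1 / 2 : ℝ) < p) (hp1 : p < 1) :
    ∃ A : ℤ, 2 ≤ A ∧ ∀ᵐ ω ∂(Perc p hp1.le), ∃ C : Set (ℤ × ℤ), InfiniteCluster ω C ∧
      (∀ C' : Set (ℤ × ℤ), InfiniteCluster ω C' → C' = C) ∧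
      ∀ t : ℤ × ℤ, PositiveDensity (C ∩ Wedge A t) ∧
        ∃ z : ℕ → ℤ × ℤ, Function.Injective z ∧ (∀ n, z n ∈ C) ∧
          ∀ a : ℕ → ℝ, ∃ h : ℤ × ℤ → ℝ, Harmonic ω C h ∧
            (∀ x ∈ C ∩ Wedge A t, h x = 0) ∧ ∀ n, h (z n) = a n := by
  have B1 := Pool.Agent.W565.UCB1.main
  have C1 := Pool.Agent.W826.UCC1.main
  have C3 := Pool.Agent.W344.UCC3.main
  have C7a := Pool.Agent.W826.UCC7a.main
  have C7b := Pool.Agent.W826.UCC7b.main C7a
  have C8 := Pool.Agent.W344.UCC8.main C7a C7b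
  have A5 := Pool.Agent.W829.UC.A5.main Pool.Agent.W344.UCA1.main Pool.Agent.W344.UCA2.main
      Pool.Agent.W565.UCA3.main (Pool.Agent.W346.UCA4.main Pool.Agent.W346.UCPL1.main)
      Pool.Agent.W829.UC.A5a.main Pool.Agent.W829.UC.A5b.main
  have B2 := Pool.Agent.W829.UC.B2.main B1
  have B3 := Pool.Agent.W829.UC.B3.main B1 Pool.Agent.W829.UC.B3a.main
  obtain ⟨A, hA, E, hEm, hEp, hE⟩ := good_event
    (Pool.Agent.W346.UCB5a.main B1 Pool.Agent.W346.UCPL2.main) Pool.Agent.W826.UCB5b.main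
    (Pool.Agent.W346.UCC2.main C1) (Pool.Agent.W826.UCC5a.main C3)
    (Pool.Agent.W826.UCC5b.main C3 Pool.Agent.W344.UCC4.main) Pool.Agent.W829.UC.C6.main
    p hp1.le hp hp1
  have hu := (C7b p hp1.le hp).1
  have hall : ∀ᵐ ω ∂(mu p hp1.le), (∀ u ∈ InfV ω, ∀ v ∈ InfV ω, (og ω).Reachable u v) ∧
      (∃ i : ℤ, 1 ≤ i ∧ ((-i, 0) : ℤ × ℤ) ∈ InfV ω) ∧ QG (Zw A ∩ InfV ω) := by
    filter_upwards [hu, neg_axis C8 p hp1.le hp, wedge_QG C8 p hp1.le hp hA] with ω a b c
    exact ⟨a.2, b, c⟩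
  have hall2 : ∀ᵐ ω ∂(mu p hp1.le), ∀ t : ℤ × ℤ,
      (∀ u ∈ InfV (shiftC t ω), ∀ v ∈ InfV (shiftC t ω), (og (shiftC t ω)).Reachable u v) ∧
      (∃ i : ℤ, 1 ≤ i ∧ ((-i, 0) : ℤ × ℤ) ∈ InfV (shiftC t ω)) ∧
      QG (Zw A ∩ InfV (shiftC t ω)) := by
    rw [ae_all_iff]
    intro t
    have hmp : MeasurePreserving (shiftC t) (mu p hp1.le) (mu p hp1.le) :=
      ⟨measurable_shiftC t, shiftC_map p hp1.le t⟩
    exact hmp.quasiMeasurePreserving.ae hall
  refine ⟨A, hA, ?_⟩
  show ∀ᵐ ω ∂(mu p hp1.le), _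
  filter_upwards [hu, hall, hall2, ae_ray p hp1.le E hEm hEp] with ω h1 h2 h3 h4
  obtain ⟨_, ⟨i, _, hi⟩, _⟩ := h2
  have hC : InfComp (openG lat ω) (InfV ω) := infComp_InfV ⟨_, hi⟩ h1.2
  refine ⟨InfV ω, (infComp_iff ω _).2 hC, ?_, fun t => ⟨?_, ?_⟩⟩
  · intro C' hC'
    have hC'2 := (infComp_iff ω C').1 hC'
    have hsub : ∀ x ∈ C', x ∈ InfV ω := by
      intro x hx
      show {y | (openG lat ω).Reachable x y}.Infinite
      have : {y | (openG lat ω).Reachable x y} = C' := by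
        ext y; exact hC'2.2 x hx y
      rw [this]; exact hC'2.1
    obtain ⟨x, hx⟩ := hC'2.1.nonempty
    ext y
    exact ⟨hsub y, fun hy => (hC'2.2 x hx y).1 (h1.2 x (hsub x hx) y hy)⟩
  · have h5 := QG_shift t (h3 t).2.2
    refine (h5.mono fun z hz => ?_).posDens
    obtain ⟨hz1, hz2⟩ := hz
    rw [infV_shift, sub_add_cancel] at hz2
    exact ⟨hz2, hz1⟩
  · obtain ⟨z, hz1, hz2, hz3⟩ := seq_part hA ω t fun n => by
      obtain ⟨m, hm, hmE⟩ := h4 t n
      obtain ⟨q1, q2, q3⟩ := hE _ hmE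
      obtain ⟨b1, b2, b3⟩ := h3 (t.1 - (m : ℤ), t.2)
      exact ⟨m, hm, shift_one _ ω (det_one A5 B2 B3 B1 hA q3 q1 q2 b1 b2)⟩
    refine ⟨z, hz1, hz2, fun a => ?_⟩
    obtain ⟨h, e1, e2, e3⟩ := hz3 a
    exact ⟨h, harmonic_of ω _ h e1, fun x hx => e2 x hx.2, e3⟩

end Pool.Agent.Results.MP_566bac_pr.WedgeInterpolation
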